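import Pool.Agent.L0h86.JS.StmN

/-!
# Project JQ (helper86): the joint law for discriminants of both signs, statements

`sg l = 1` for a negative, `sg l = 0` for a positive discriminant. The systems are those of JS
(`Pool/Agent/L0h86/JS/Stm.lean`); only the parity hypothesis and the limits change: the proportion is
`η` for negative and `2 η` for positive discriminants.
-/

set_option autoImplicit false
set_option linter.unusedVariables false

open scoped Classical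

namespace Pool.Agent.L0h86.JQ

open Finset
open Pool.Agent.Y703.CX (sm la jj XX eL zz kk)
open Pool.Agent.Y703.CQ (nr sg)
open Pool.Agent.N973.ND (Pr ty uu SA)
open Pool.Agent.N916.GB (Po sy Vt Gd Gv ps sx pt eta HB Nd)
open Pool.Agent.L0h74.EV (SE Cl n2 NdE)
open Pool.Agent.L0h74.EV.KEY (ph CC)
open Pool.Agent.L0h74.AP (Cp)
open Pool.Agent.L0h2.P (RK S_KEYG)
open Pool.Agent.L0h86.JR
open Pool.Agent.L0h86.JS

/-- the proportion for one system -/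
noncomputable def pQ (s : ZMod 2) : ℝ := if s = 1 then eta else 2 * eta

/-- the limit of a pattern -/
noncomputable def amS {t : ℕ} (s : Fin t → ZMod 2) (β : Fin t → Bool) : ℝ :=
  ∏ l, if β l = true then pQ (s l) else 1 - pQ (s l)

/-! ### The linear algebra -/

/-- the hypotheses on the systems: `HL` with the sums `σg` -/
structure HLS {t : ℕ} {U : Fin t → Type} [∀ l, Fintype (U l)] {J : Type} [Fintype J]
    [LinearOrder J] (σg : Fin t → ZMod 2) (w u : ∀ l, U l ⊕ J → ZMod 2)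
    (N : ∀ l, U l ⊕ J → U l ⊕ J → ZMod 2) : Prop where
  w1 : ∀ l k, w l (Sum.inr k) = 1
  u1 : ∀ l, ∑ i, u l i = σg l
  rel : ∀ l i j, i ≠ j → w l i * N l i j + w l j * N l j i = u l i * u l j
  w0 : ∀ l v, w l (Sum.inl v) = 0 →
    u l (Sum.inl v) = 1 ∧ ∀ v', w l (Sum.inl v') = 0 → v = v'
  nd : ∀ l (b : U l → ZMod 2) (s : ZMod 2), ((∃ v, b v ≠ 0) ∨ s ≠ 0) →
    ∃ k, ∑ v, b v * N l (Sum.inl v) (Sum.inr k) + s * u l (Sum.inr k) ≠ 0
  uJ : ∀ l l' k, u l (Sum.inr k) = u l' (Sum.inr k)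
  NJ : ∀ l l' k j, k ≠ j → N l (Sum.inr k) (Sum.inr j) = N l' (Sum.inr k) (Sum.inr j)

/-- LATS: the joint law of random completions, with types. -/
def S_LATS : Prop := ∀ (t n : ℕ) (σg : Fin t → ZMod 2) (ε : ℝ), 0 < ε → ∃ M V : ℕ,
  ∀ (U : Fin t → Type) [∀ l, Fintype (U l)] (J : Type) [Fintype J] [LinearOrder J]
  (w u : ∀ l, U l ⊕ J → ZMod 2) (N : ∀ l, U l ⊕ J → U l ⊕ J → ZMod 2)
  (x : Fin t → Fin n → ZMod 2) (JR : Fin n → Finset J),
  HLS σg w u N → HT u N x JR (M * ∑ l, Fintype.card (U l) + V) → ∀ β : Fin t → Bool,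
  |((univ.filter fun σ : ps J → ZMod 2 => ∀ l, (Gv (pt (N l) (sx σ)) ↔ β l = true)).card : ℝ) /
    2 ^ (ps J).card - amS σg β| ≤ ε

/-! ### Boxes and keys -/

/-- the hypotheses on the systems -/
structure HyS {t n : ℕ} (σg : Fin t → ZMod 2) (s : Fin t → Sr) (f : Fin t → Bool) (u a : ℕ)
    (cl : Fin n → ℕ) (x : Fin t → Fin n → ZMod 2) : Prop where
  cp : Cp u a
  h56 : 56 ∣ u
  ts : ∀ l, (s l).t = false → (s l).s = 0
  tr : ∀ l, (s l).t = true → (s l).r ≠ 0 ∨ (s l).s ≠ 0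
  fl : ∀ l, f l = true → (s l).t = true ∧ (s l).r = 1 ∧ (s l).s = 0
  W : ∀ l, ∀ v ∈ (s l).W, Po v ∧ v ∣ u
  par : ∀ l S, Cl u a S → ((((S ∪ (s l).W).filter fun p => p % 4 = 3).card +
    (if (s l).s = 0 then 0 else 1) : ℕ) : ZMod 2) = σg l
  par2 : ∀ l, f l = true → ∀ S, Cl u a S → ∑ p ∈ S ∪ (s l).W, nr p 2 = 0
  clc : ∀ r, cl r < 7 * u ∧ (cl r).Coprime (7 * u)
  typ : ∀ l r p, Pr p → p % (7 * u) = cl r → uu p = 0 ∧ dgG (f l) (s l) p = x l r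
  sep : ∀ l l', l ≠ l' → ∃ r, x l r ≠ x l' r

/-- BOXS: the joint law in a box. -/
def S_BOXS : Prop := ∀ (t n : ℕ) (σg : Fin t → ZMod 2) (ε : ℝ), 0 < ε → ∃ M V : ℕ,
  ∀ (s : Fin t → Sr)
  (f : Fin t → Bool) (ι : Type) [Fintype ι] [LinearOrder ι] (τ : ι → ℕ) (τ₂ : ι → ZMod 2)
  (C : ι → Finset ℕ) (X : ι → ℕ) (κ : ℝ) (S₀ : Finset ℕ) (x : Fin t → Fin n → ZMod 2)
  (JR : Fin n → Finset ι) (β : Fin t → Bool),
  (∀ l, (s l).t = false → (s l).s = 0) → (∀ l, (s l).t = true → (s l).r ≠ 0 ∨ (s l).s ≠ 0) →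
  (∀ l, f l = true → (s l).t = true ∧ (s l).r = 1 ∧ (s l).s = 0) →
  0 ≤ κ → (∀ i, (C i).card ≤ X i) → HB C X κ → S₀.Nonempty →
  (∀ v ∈ S₀, Po v) → (∀ l, ∀ v ∈ (s l).W, Po v) → (∀ l, Disjoint S₀ (s l).W) →
  (∀ i, ∀ p ∈ C i, Po p ∧ p ∉ S₀ ∧ (∀ l, p ∉ (s l).W) ∧ p % 4 = τ i ∧ nr p 2 = τ₂ i) →
  (∀ i l, i ≠ l → Disjoint (C i) (C l)) →
  (∀ l, ((((S₀ ∪ (s l).W).filter fun p => p % 4 = 3).card +
    (univ.filter fun i => τ i = 3).card + (if (s l).s = 0 then 0 else 1) : ℕ) : ZMod 2) = σg l) →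
  (∀ l, f l = true → ∑ v ∈ S₀ ∪ (s l).W, nr v 2 + ∑ i, τ₂ i = 0) →
  M * ∑ l, ((S₀ ∪ (s l).W).card + 1) + V ≤ (univ.filter fun i => τ i = 3).card →
  (∀ r, M * ∑ l, ((S₀ ∪ (s l).W).card + 1) + V ≤ (JR r).card) →
  (∀ r, ∀ i ∈ JR r, τ i ≠ 3 ∧ ∀ p ∈ C i, ∀ l, dgG (f l) (s l) p = x l r) →
  (∀ l l', l ≠ l' → ∃ r, x l r ≠ x l' r) →
  |(((Fintype.piFinset C).filter fun p => NdR s S₀ (univ.image p) ∧
        PatG s f β (S₀ ∪ univ.image p)).card : ℝ) -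
      amS σg β * (((Fintype.piFinset C).filter fun p => NdR s S₀ (univ.image p)).card : ℝ)| ≤
    ε * (((Fintype.piFinset C).filter fun p => NdR s S₀ (univ.image p)).card : ℝ) +
    2 ^ ((∑ l, (2 * (S₀ ∪ (s l).W).card + 1)) * Fintype.card ι + (ps ι).card) *
      (κ * ∏ j, (X j : ℝ))

/-- KYS: the joint law on the regular sets. -/
def S_KYS : Prop := ∃ C : ℝ, 1 ≤ C ∧ ∀ (t n : ℕ) (σg : Fin t → ZMod 2) (s : Fin t → Sr)
  (f : Fin t → Bool) (u a : ℕ) (cl : Fin n → ℕ) (x : Fin t → Fin n → ZMod 2),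
  HyS σg s f u a cl x → ∀ ε : ℝ, 0 < ε →
  ∃ V M K : ℕ, ∀ (β : Fin t → Bool) (X z H k N : ℕ) (κ : ℝ), 1 ≤ X → 1 ≤ H → u ≤ z → 0 ≤ κ →
  C ≤ κ ^ 12 * z → (H : ℝ) * Real.log X < N →
  |(((RK u a X z H k (KQG cl V M)).filter fun S =>
        NdR s (sm z S) (la z S) ∧ PatG s f β S).card : ℝ) -
      amS σg β * (((RK u a X z H k (KQG cl V M)).filter fun S =>
        NdR s (sm z S) (la z S)).card : ℝ)| ≤
    ε * ((RK u a X z H k (KQG cl V M)).card : ℝ) +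
    (9 * (u * N) + 9 : ℝ) ^ k * (3 ^ (K * (k ^ 2 + 1)) * κ) * (X * (1 + Real.log X))

/-- DS: the joint law in a class. -/
def S_DS : Prop := ∀ (t n : ℕ) (σg : Fin t → ZMod 2) (s : Fin t → Sr) (f : Fin t → Bool)
  (u a : ℕ) (cl : Fin n → ℕ) (x : Fin t → Fin n → ZMod 2), HyS σg s f u a cl x →
  ∀ β : Fin t → Bool, ∀ ε : ℝ, 0 < ε → ∀ᶠ X : ℕ in Filter.atTop,
    |(((SE u a X).filter (PatG s f β)).card : ℝ) - amS σg β * ((SE u a X).card : ℝ)| ≤ ε * X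

/-! ### The numbers: `b = false` is the sign `-1`, `b = true` the sign `+1` -/

/-- the sign -/
def sgn (b : Bool) : ℤ := if b = true then 1 else -1

/-- the sum of the classes modulo four -/
def sgS (b : Bool) : ZMod 2 := if b = true then 0 else 1

/-- the split case: `± g m = 1` modulo `8`, for `m = a` modulo `u` -/
def flS (b : Bool) (g a : ℕ) : Bool :=
  decide (g % 2 = 1 ∧ (g * a) % 8 = if b = true then 1 else 7)

/-- the system of `ℚ(√(± g m))`, `m = a` modulo `u` -/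
def sysS (b : Bool) (g a : ℕ) : Sr := if flS b g a = true then ⟨true, 1, 0, g.primeFactors⟩ else
  ⟨decide (g % 2 = 0 ∨ (oR g * a) % 4 = if b = true then 3 else 1),
    if g % 2 = 0 then 1 else 0,
    if (oR g * a) % 4 = (if b = true then 1 else 3) then 0 else 1,
    (oR g).primeFactors⟩

/-- HYS: the systems satisfy the hypotheses. -/
def S_HYS : Prop := ∀ (u a : ℕ), Cp u a → 56 ∣ u → ∀ (t : ℕ) (b : Fin t → Bool) (g : Fin t → ℕ),
  (∀ l, Squarefree (g l)) → (∀ l p, p.Prime → p ∣ g l → p ∣ u) → Function.Injective g →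
  ∃ (n : ℕ) (cl : Fin n → ℕ) (x : Fin t → Fin n → ZMod 2),
    HyS (fun l => sgS (b l)) (fun l => sysS (b l) (g l) a) (fun l => flS (b l) (g l) a) u a cl x

/-- the Rédei condition for `ℚ(√(± D))` -/
def NQS (b : Bool) (D : ℕ) : Prop := if D % 8 = (if b = true then 1 else 7) then
    Gd7 D.primeFactors
  else Gd (decide (D % 2 = 0 ∨ D % 4 = if b = true then 3 else 1)) (if D % 2 = 0 then 1 else 0)
    (if oR D % 4 = (if b = true then 1 else 3) then 0 else 1) (oR D).primeFactors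

/-- TRS: the translation. -/
def S_TRS : Prop := (∀ (b : Bool) (u a g m : ℕ), Cp u a → 56 ∣ u → Squarefree g →
  (∀ p, p.Prime → p ∣ g → p ∣ u) → Squarefree m → m % u = a →
  (GdG (flS b g a) (sysS b g a) m.primeFactors ↔ NQS b (g * m))) ∧
  ∀ (b : Bool) (D : ℕ), Squarefree D → 1 < D → (NQS b D ↔ CrE (sgn b * (D : ℤ)))

/-- LAWS: **the joint law for both signs, in all residue classes.** -/
def S_LAWS : Prop := ∀ (t : ℕ) (b : Fin t → Bool) (d : Fin t → ℕ), (∀ l, 0 < d l) →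
  Function.Injective (fun l => sqf (d l)) → ∀ q r : ℕ, 0 < q → (∃ m₀, FamG q r m₀) →
  ∀ β : Fin t → Bool, Filter.Tendsto (fun X : ℕ =>
    (nR (FamG q r) (fun m => ∀ l, (CrE (sgn (b l) * (sqf (d l * m) : ℤ)) ↔ β l = true)) X : ℝ) /
    (nR (FamG q r) (fun _ => True) X : ℝ)) Filter.atTop (nhds (amS (fun l => sgS (b l)) β))

end Pool.Agent.L0h86.JQ
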