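import Pool.Agent.L0h86.JQ.StmA
import Pool.Agent.L0h1.SJ.MOA

/-!
# Project JQ, module MOAS: the assembly of the moments, edit of Pool/Agent/L0h1/SJ/MOA.lean
(helper88, helper1)
-/

set_option autoImplicit false

open scoped Classical

namespace Pool.Agent.L0h86.JQ

open Finset
open Pool.Agent.L0h1.SJ.MOA
open Pool.Agent.L0h1.SJ (eta ps sx pt Gv IsSol Ind cnt ak de sz sr Tu Ix Xf Sml tg IndT SolT RX DX
  pr Full Al ch kap S_BON S_EUL S_FOUR S_ORT S_RBD S_CNA S_PAR S_NSA)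

theorem t_MOAS : S_MOAS := by
  intro hF hO hA hB hM t n K sg ε hε
  have h3 : 0 < ε / 3 := by positivity
  obtain ⟨CA, hCA⟩ := hA t K (ε / 3) h3
  obtain ⟨CB, hCB⟩ := hB t n K sg (ε / 3) h3
  obtain ⟨CM, hCM⟩ := hM t n K sg (ε / 3) h3
  refine ⟨max CA (max CB CM), fun U _ J _ _ w uU uJ N NJ x JR hl hu hr => ?_⟩
  have mA : CA * sz U ≤ max CA (max CB CM) * sz U :=
    Nat.mul_le_mul_right _ (le_max_left _ _)
  have mB : CB * sz U ≤ max CA (max CB CM) * sz U :=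
    Nat.mul_le_mul_right _ ((le_max_left _ _).trans (le_max_right _ _))
  have mM : CM * sz U ≤ max CA (max CB CM) * sz U :=
    Nat.mul_le_mul_right _ ((le_max_right _ _).trans (le_max_right _ _))
  have hJ : (univ.filter fun k => uJ k = 1).card ≤ Fintype.card J := by
    rw [← Finset.card_univ]
    exact Finset.card_filter_le _ _
  have hA0 := hCA U J ((mA.trans hu).trans hJ)
  have hB0 := hCB U J w uU uJ N NJ x JR hl (mB.trans hu) (fun r => mB.trans (hr r))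
  have hM0 := hCM U J w uU uJ N NJ x JR hl (mM.trans hu) (fun r => mM.trans (hr r))
  obtain ⟨S, hS⟩ : ∃ S : Tu K U J → ℝ, S = fun ξ => ∑ y ∈ RX (Xf ξ), sr (pr y (tg N ξ)) :=
    ⟨_, rfl⟩
  obtain ⟨Q, hQ⟩ : ∃ Q : ℝ, Q = 2 ^ (Fintype.card J * Fintype.card (Ix K)) := ⟨_, rfl⟩
  have hQ0 : 0 < Q := by rw [hQ]; positivity
  obtain ⟨R, hR⟩ : ∃ R : ℝ, R = 2 ^ (ps J).card := ⟨_, rfl⟩
  have hR0 : 0 < R := by rw [hR]; positivity
  have hA' : ∑ ξ : Tu K U J, (if ¬ Full (Xf ξ) then ((RX (Xf ξ)).card : ℝ) else 0) ≤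
      ε / 3 * Q := by
    rw [← Finset.sum_filter, hQ]
    refine le_trans (le_of_eq ?_) hA0
    exact sum_inst _ _ _ _ _ _
  have hB' : ∑ ξ : Tu K U J, (if IndT ξ ∧ Full (Xf ξ) ∧ (∃ c ∈ DX (Xf ξ), c ≠ 0) ∧
      (∀ y ∈ RX (Xf ξ), pr y (tg N ξ) = 0) then ((RX (Xf ξ)).card : ℝ) else 0) ≤
      ε / 3 * Q := by
    rw [← Finset.sum_filter, hQ]
    exact hB0
  have hM' : |∑ ξ : Tu K U J, (if Function.Surjective (Xf ξ) ∧ Sml N ξ then S ξ else 0) -
      lim sg K * Q| ≤ ε / 3 * Q := by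
    rw [← Finset.sum_filter, hQ, hS]
    exact hM0
  clear hA0 hB0 hM0
  -- the sum over `σ`
  have key : ∑ σ : ps J → ZMod 2, ∏ l, (cnt (K l) (pt (N l) (sx σ)) : ℝ) =
      R / Q * ∑ ξ : Tu K U J, (if IndT ξ ∧ Sml N ξ then S ξ else 0) := by
    have h1 : ∀ σ : ps J → ZMod 2, ∏ l, (cnt (K l) (pt (N l) (sx σ)) : ℝ) =
        ∑ ξ : Tu K U J, (if IndT ξ ∧ SolT N σ ξ then (1 : ℝ) else 0) := by
      intro σ
      exact prod_cnt_real N σ
    rw [Finset.sum_congr rfl fun σ _ => h1 σ, Finset.sum_comm, Finset.mul_sum]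
    apply Finset.sum_congr rfl
    intro ξ _
    have h5 := hF t K U J N ξ
    rw [← hQ, ← hR] at h5
    have h6 : ((univ.filter fun σ : ps J → ZMod 2 => SolT N σ ξ).card : ℝ) =
        R / Q * (if Sml N ξ then S ξ else 0) := by
      rw [div_mul_eq_mul_div, eq_div_iff hQ0.ne', h5, hS]
    by_cases hI : IndT ξ
    · have h7 : ∑ σ : ps J → ZMod 2, (if IndT ξ ∧ SolT N σ ξ then (1 : ℝ) else 0) =
          ((univ.filter fun σ : ps J → ZMod 2 => SolT N σ ξ).card : ℝ) := by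
        rw [Finset.sum_boole]
        congr 2
        apply Finset.filter_congr
        intro σ _
        exact ⟨fun h => h.2, fun h => ⟨hI, h⟩⟩
      rw [h7, h6]
      congr 1
      by_cases hs : Sml N ξ
      · rw [if_pos hs, if_pos ⟨hI, hs⟩]
      · rw [if_neg hs, if_neg fun h => hs h.2]
    · rw [if_neg fun h => hI h.1, mul_zero]
      apply Finset.sum_eq_zero
      intro σ _
      rw [if_neg fun h => hI h.1]
  -- the pointwise comparison
  have hpt : ∀ ξ : Tu K U J,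
      0 ≤ (if IndT ξ ∧ Sml N ξ then S ξ else 0) -
        (if Function.Surjective (Xf ξ) ∧ Sml N ξ then S ξ else 0) ∧
      (if IndT ξ ∧ Sml N ξ then S ξ else 0) -
        (if Function.Surjective (Xf ξ) ∧ Sml N ξ then S ξ else 0) ≤
      (if ¬ Full (Xf ξ) then ((RX (Xf ξ)).card : ℝ) else 0) +
        (if IndT ξ ∧ Full (Xf ξ) ∧ (∃ c ∈ DX (Xf ξ), c ≠ 0) ∧
          ∀ y ∈ RX (Xf ξ), pr y (tg N ξ) = 0 then ((RX (Xf ξ)).card : ℝ) else 0) := by
    intro ξ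
    obtain ⟨o1, o2, o3⟩ := hO J (Ix K) (Xf ξ) (tg N ξ)
    have hSξ : S ξ = ∑ y ∈ RX (Xf ξ), sr (pr y (tg N ξ)) := by rw [hS]
    rw [← hSξ] at o1 o2 o3
    have hcard : (0 : ℝ) ≤ ((RX (Xf ξ)).card : ℝ) := Nat.cast_nonneg _
    have hR1 : (0 : ℝ) ≤ (if ¬ Full (Xf ξ) then ((RX (Xf ξ)).card : ℝ) else 0) := by
      split_ifs <;> first | exact hcard | exact le_rfl
    have hR2 : (0 : ℝ) ≤ (if IndT ξ ∧ Full (Xf ξ) ∧ (∃ c ∈ DX (Xf ξ), c ≠ 0) ∧
          ∀ y ∈ RX (Xf ξ), pr y (tg N ξ) = 0 then ((RX (Xf ξ)).card : ℝ) else 0) := by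
      split_ifs <;> first | exact hcard | exact le_rfl
    by_cases hsur : Function.Surjective (Xf ξ)
    · have hI := surj_ind ξ hsur
      have e : (if IndT ξ ∧ Sml N ξ then S ξ else 0) =
          (if Function.Surjective (Xf ξ) ∧ Sml N ξ then S ξ else 0) := by
        by_cases hs : Sml N ξ
        · rw [if_pos ⟨hI, hs⟩, if_pos ⟨hsur, hs⟩]
        · rw [if_neg fun h => hs h.2, if_neg fun h => hs h.2]
      rw [e, sub_self]
      exact ⟨le_rfl, by linarith⟩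
    · rw [if_neg (fun h => hsur h.1 : ¬ (Function.Surjective (Xf ξ) ∧ Sml N ξ)), sub_zero]
      by_cases hIS : IndT ξ ∧ Sml N ξ
      · rw [if_pos hIS]
        refine ⟨o1, ?_⟩
        by_cases hf : Full (Xf ξ)
        · have hc : ∃ c ∈ DX (Xf ξ), c ≠ 0 := by
            by_contra hc
            exact hsur (full_surj _ hf hc)
          by_cases hy : ∀ y ∈ RX (Xf ξ), pr y (tg N ξ) = 0
          · rw [if_pos (⟨hIS.1, hf, hc, hy⟩ : IndT ξ ∧ Full (Xf ξ) ∧ (∃ c ∈ DX (Xf ξ), c ≠ 0) ∧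
              ∀ y ∈ RX (Xf ξ), pr y (tg N ξ) = 0)]
            linarith
          · push Not at hy
            rw [o3 hy]
            linarith
        · rw [if_pos hf]
          linarith
      · rw [if_neg hIS]
        exact ⟨le_rfl, by linarith⟩
  -- summation
  obtain ⟨T, hT⟩ : ∃ T : ℝ, T = ∑ ξ : Tu K U J, (if IndT ξ ∧ Sml N ξ then S ξ else 0) :=
    ⟨_, rfl⟩
  obtain ⟨M, hMd⟩ : ∃ M : ℝ, M = ∑ ξ : Tu K U J,
    (if Function.Surjective (Xf ξ) ∧ Sml N ξ then S ξ else 0) := ⟨_, rfl⟩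
  have hTM0 : 0 ≤ T - M := by
    rw [hT, hMd, ← Finset.sum_sub_distrib]
    exact Finset.sum_nonneg fun ξ _ => (hpt ξ).1
  have hTM1 : T - M ≤ ε / 3 * Q + ε / 3 * Q := by
    rw [hT, hMd, ← Finset.sum_sub_distrib]
    refine (Finset.sum_le_sum fun ξ _ => (hpt ξ).2).trans ?_
    rw [Finset.sum_add_distrib]
    exact add_le_add hA' hB'
  have hM2 : |M - lim sg K * Q| ≤ ε / 3 * Q := by
    rw [hMd]
    exact hM'
  rw [key, ← hT]
  have e1 : R / Q * T / 2 ^ (ps J).card = T / Q := by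
    rw [← hR]
    field_simp
  rw [e1]
  rw [abs_le] at hM2 ⊢
  have e2 : T / Q - lim sg K = (T - lim sg K * Q) / Q := by
    field_simp
  rw [e2]
  constructor
  · rw [le_div_iff₀ hQ0]
    nlinarith [hM2.1]
  · rw [div_le_iff₀ hQ0]
    nlinarith [hM2.2]

end Pool.Agent.L0h86.JQ
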