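import Pool.Agent.L0h86.JQ.StmA
import Pool.Agent.L0h81.SJ.NSB

/-! # JQ, module NSBS: edit of Pool/Agent/L0h81/SJ/NSB.lean (helper81) -/

set_option autoImplicit false
set_option linter.unusedVariables false
set_option linter.unusedSectionVars false

open scoped Classical

namespace Pool.Agent.L0h86.JQ

open Finset
open Pool.Agent.L0h81.SJ (z2 z2_add_self sr_add gd_sum cover card_idx card_sm Gd sm)
open Pool.Agent.L0h1.SJ (eta ps sx pt Gv IsSol Ind cnt ak de sz sr Tu Ix Xf Sml tg IndT SolT RX DX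
  pr Full Al ch kap S_BON S_EUL S_FOUR S_ORT S_RBD S_CNA S_PAR S_NSA)

/-- **NSBS** -/
theorem t_NSBS (hRBD : S_RBD) (hGRD : S_GRDS) : S_NSBS := by
  intro t n K sg ε hε
  set k := Fintype.card (Ix K) with hk
  set M := ∑ l, K l with hM
  set B : ℝ := 2 ^ (2 ^ k) * n * 2 ^ k * 2 * 2 ^ k * 2 ^ (k * (k + 1)) with hB
  have hB0 : 0 ≤ B := by positivity
  obtain ⟨L, hL⟩ := exists_pow_lt_of_lt_one (div_pos hε (by linarith : 0 < B + 1))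
    (by norm_num : (1 / 2 : ℝ) < 1)
  have hL' : B * (1 / 2 : ℝ) ^ L ≤ ε := by
    rw [lt_div_iff₀ (by linarith)] at hL
    have h1 : (0 : ℝ) ≤ (1 / 2) ^ L := by positivity
    nlinarith
  refine ⟨M + L + 1, ?_⟩
  intro U _ J _ _ w uU uJ N NJ x JR hl h1 h2
  have hsz : 1 ≤ sz U := Nat.le_add_left _ _
  have hJ : Nonempty J := by
    have h3 : 0 < (univ.filter fun k => uJ k = 1).card := by
      refine lt_of_lt_of_le ?_ h1
      exact Nat.mul_pos (Nat.succ_pos _) hsz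
    obtain ⟨j, _⟩ := card_pos.1 h3
    exact ⟨j⟩
  obtain ⟨k₀⟩ := hJ
  have hJ' : Nonempty J := ⟨k₀⟩
  set g : Tu K U J → ℝ := fun ξ => ((RX (Xf ξ)).card : ℝ) with hg
  have hg0 : ∀ ξ, 0 ≤ g ξ := fun ξ => Nat.cast_nonneg _
  set Q : Finset (Tu K U J) := univ.filter (fun ξ : Tu K U J => IndT ξ ∧ Full (Xf ξ) ∧
    (∃ c ∈ DX (Xf ξ), c ≠ 0) ∧ ∀ y ∈ RX (Xf ξ), pr y (tg N ξ) = 0) with hQ
  let G : (Finset (Ix K → ZMod 2) × Fin n × (Ix K → ZMod 2) × ZMod 2 ×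
      (∀ l, Fin (K l) → U l → ZMod 2) × (Ix K → ZMod 2)) → Finset (Tu K U J) := fun d =>
    univ.filter fun ξ : Tu K U J => Gd uJ N x JR k₀ d.1 d.2.1 d.2.2.1 d.2.2.2.1 d.2.2.2.2.1
      d.2.2.2.2.2 ξ
  have hcov : ∀ ξ ∈ Q, ∃ d, ξ ∈ G d := by
    intro ξ hξ
    obtain ⟨_, hi, _, hc, hy⟩ := mem_filter.1 hξ
    obtain ⟨r, c, hcD, e, h3, h4, h5⟩ := hGRD t n K sg U J w uU uJ N NJ x JR hl hJ' ξ hi hc hy
    exact ⟨(DX (Xf ξ), r, c, e, sm ξ, Xf ξ k₀), mem_filter.2 ⟨mem_univ _, ⟨rfl, h3, rfl, rfl, h5⟩⟩⟩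
  have hterm : ∀ d, ∑ ξ ∈ G d, g ξ ≤ 2 ^ (k * (k + 1)) *
      ((2 ^ k) ^ Fintype.card J * (1 / 2 : ℝ) ^ ((M + L + 1) * sz U)) := by
    intro d
    exact gd_sum hRBD uJ N x JR k₀ d.1 d.2.1 d.2.2.1 d.2.2.2.1 d.2.2.2.2.1 d.2.2.2.2.2 _ (h2 _)
      (G d) fun ξ hξ => (mem_filter.1 hξ).2
  have hpow : (2 : ℝ) ^ (M * sz U) * (1 / 2 : ℝ) ^ ((M + L + 1) * sz U) ≤ (1 / 2) ^ L := by
    have e1 : (M + L + 1) * sz U = M * sz U + (L + 1) * sz U := by ring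
    rw [e1, pow_add, ← mul_assoc, ← mul_pow]
    norm_num
    have e2 : L ≤ (L + 1) * sz U := by nlinarith
    have := pow_le_pow_of_le_one (by norm_num : (0 : ℝ) ≤ 1 / 2) (by norm_num) e2
    simpa using this
  refine (cover Q G g hg0 hcov _ hterm).trans ?_
  refine (mul_le_mul_of_nonneg_right (card_idx n K U) (by positivity)).trans ?_
  calc (2 ^ (2 ^ k) * n * 2 ^ k * 2 * 2 ^ k * 2 ^ (M * sz U)) * (2 ^ (k * (k + 1)) *
      ((2 ^ k) ^ Fintype.card J * (1 / 2 : ℝ) ^ ((M + L + 1) * sz U)))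
      = B * (2 ^ (M * sz U) * (1 / 2 : ℝ) ^ ((M + L + 1) * sz U)) * (2 ^ k) ^ Fintype.card J := by
        rw [hB]
        ring
    _ ≤ B * (1 / 2) ^ L * (2 ^ k) ^ Fintype.card J :=
        mul_le_mul_of_nonneg_right (mul_le_mul_of_nonneg_left hpow hB0) (by positivity)
    _ ≤ ε * (2 ^ k) ^ Fintype.card J := mul_le_mul_of_nonneg_right hL' (by positivity)
    _ = ε * 2 ^ (Fintype.card J * k) := by rw [← pow_mul, mul_comm k]

end Pool.Agent.L0h86.JQ
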