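import Pool.Agent.L0h1.SJ.StmA

/-!
# Project JQ (helper86): the joint law for discriminants of both signs, linear algebra

The systems of `Pool/Agent/L0h1/SJ/StmA.lean` without the hypothesis that the classes modulo four add
up to `1`: for the system `l` the sum is `sg l` (`1` for a negative, `0` for a positive discriminant).
If `sg l = 1`, the left sides of the equations add up to zero; if `sg l = 0`, they add up to the form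
`uf`. The limit is `eta` for `sg l = 1` and `2 eta` for `sg l = 0`.
-/

set_option autoImplicit false
set_option linter.unusedVariables false

open scoped Classical

namespace Pool.Agent.L0h86.JQ

open Finset
open Pool.Agent.L0h1.SJ (eta ps sx pt Gv IsSol Ind cnt ak de sz sr Tu Ix Xf Sml tg IndT SolT RX DX pr
  Full Al ch kap S_BON S_EUL S_FOUR S_ORT S_RBD S_CNA S_PAR S_NSA)

/-- the hypotheses on the systems: `Hl` with the sums `sg` -/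
structure HlS {t n : ℕ} {U : Fin t → Type} [∀ l, Fintype (U l)] {J : Type} [Fintype J]
    (sg : Fin t → ZMod 2) (w : ∀ l, U l ⊕ J → ZMod 2) (uU : ∀ l, U l → ZMod 2) (uJ : J → ZMod 2)
    (N : ∀ l, U l ⊕ J → U l ⊕ J → ZMod 2) (NJ : J → J → ZMod 2)
    (x : Fin t → Fin n → ZMod 2) (JR : Fin n → Finset J) : Prop where
  w1 : ∀ l k, w l (Sum.inr k) = 1
  su : ∀ l, ∑ v, uU l v + ∑ k, uJ k = sg l
  rc : ∀ l i j, i ≠ j →
    w l i * N l i j + w l j * N l j i = Sum.elim (uU l) uJ i * Sum.elim (uU l) uJ j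
  w0 : ∀ l v, w l (Sum.inl v) = 0 → uU l v = 1 ∧ ∀ v', w l (Sum.inl v') = 0 → v = v'
  com : ∀ l k k', k ≠ k' → N l (Sum.inr k) (Sum.inr k') = NJ k k'
  lab : ∀ l (b : U l → ZMod 2) (e : ZMod 2), ((∃ v, b v ≠ 0) ∨ e ≠ 0) →
    ∃ k, ∑ v, b v * N l (Sum.inl v) (Sum.inr k) + e * uJ k ≠ 0
  jr : ∀ r, ∀ k ∈ JR r, uJ k = 0 ∧ ∀ l l', de N l k + x l r = de N l' k + x l' r
  sep : ∀ l l', l ≠ l' → ∃ r, x l r ≠ x l' r

/-- the form of the signs -/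
noncomputable def uf {t : ℕ} {K : Fin t → ℕ} {U : Fin t → Type} [∀ l, Fintype (U l)] {J : Type}
    [Fintype J] (uU : ∀ l, U l → ZMod 2) (uJ : J → ZMod 2) (ξ : Tu K U J) (i : Ix K) : ZMod 2 :=
  ∑ v, uU i.1 v * ξ i.1 i.2 (Sum.inl v) + ∑ k, uJ k * ξ i.1 i.2 (Sum.inr k)

/-- the character of a tuple, with the multipliers `c` of the form `uf` -/
noncomputable def chS {t : ℕ} {K : Fin t → ℕ} {U : Fin t → Type} [∀ l, Fintype (U l)] {J : Type}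
    [Fintype J] (uU : ∀ l, U l → ZMod 2) (uJ : J → ZMod 2) (N : ∀ l, U l ⊕ J → U l ⊕ J → ZMod 2)
    (A : Ix K → Ix K → ZMod 2) (b : ∀ l, Fin (K l) → U l → ZMod 2) (c : Ix K → ZMod 2)
    (ξ : Tu K U J) : ZMod 2 := ch N A b ξ + ∑ i, c i * uf uU uJ ξ i

/-- the limits: `2 ^ (K l)` or `1` -/
noncomputable def lim {t : ℕ} (sg : Fin t → ZMod 2) (K : Fin t → ℕ) : ℝ :=
  ∏ l, if sg l = 1 then (2 : ℝ) ^ K l else 1

/-- the probability of the system `l` -/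
noncomputable def pS (s : ZMod 2) : ℝ := if s = 1 then eta else 2 * eta

/-- ROWS: the relation of the rows. -/
def S_ROWS : Prop := ∀ (t n : ℕ) (K : Fin t → ℕ) (sg : Fin t → ZMod 2) (U : Fin t → Type)
  [∀ l, Fintype (U l)] (J : Type)
  [Fintype J] (w : ∀ l, U l ⊕ J → ZMod 2) (uU : ∀ l, U l → ZMod 2) (uJ : J → ZMod 2)
  (N : ∀ l, U l ⊕ J → U l ⊕ J → ZMod 2) (NJ : J → J → ZMod 2)
  (x : Fin t → Fin n → ZMod 2) (JR : Fin n → Finset J), HlS sg w uU uJ N NJ x JR →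
  ∀ ξ : Tu K U J, Sml N ξ → ∀ i, ∑ q, tg N ξ q i = (sg i.1 + 1) * uf uU uJ ξ i

/-- EULS: Euler's identity, the second one. -/
def S_EULS : Prop := Filter.Tendsto (fun T : ℕ => ∑ k ∈ range (T + 1), ak k)
  Filter.atTop (nhds (2 * eta))

/-- CH0S: the characters with `A = 0`. -/
def S_CH0S : Prop := ∀ (t n : ℕ) (K : Fin t → ℕ) (sg : Fin t → ZMod 2) (U : Fin t → Type)
  [∀ l, Fintype (U l)] (J : Type)
  [Fintype J] (w : ∀ l, U l ⊕ J → ZMod 2) (uU : ∀ l, U l → ZMod 2) (uJ : J → ZMod 2)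
  (N : ∀ l, U l ⊕ J → U l ⊕ J → ZMod 2) (NJ : J → J → ZMod 2)
  (x : Fin t → Fin n → ZMod 2) (JR : Fin n → Finset J), HlS sg w uU uJ N NJ x JR →
  ∀ (b : ∀ l, Fin (K l) → U l → ZMod 2) (c : Ix K → ZMod 2), b ≠ 0 ∨ c ≠ 0 →
    ∑ ξ : Tu K U J, sr (chS uU uJ N 0 b c ξ) = 0

/-- CH1S: the characters with `A ≠ 0`. -/
def S_CH1S : Prop := ∀ (t n : ℕ) (K : Fin t → ℕ) (sg : Fin t → ZMod 2) (U : Fin t → Type)
  [∀ l, Fintype (U l)] (J : Type)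
  [Fintype J] (w : ∀ l, U l ⊕ J → ZMod 2) (uU : ∀ l, U l → ZMod 2) (uJ : J → ZMod 2)
  (N : ∀ l, U l ⊕ J → U l ⊕ J → ZMod 2) (NJ : J → J → ZMod 2)
  (x : Fin t → Fin n → ZMod 2) (JR : Fin n → Finset J), HlS sg w uU uJ N NJ x JR →
  ∀ V : ℕ, V ≤ (univ.filter fun k => uJ k = 1).card → (∀ r, V ≤ (JR r).card) →
  ∀ A ∈ Al (Ix K), A ≠ 0 → ∀ (b : ∀ l, Fin (K l) → U l → ZMod 2) (c : Ix K → ZMod 2),
    |∑ ξ : Tu K U J, sr (chS uU uJ N A b c ξ)| ≤ 2 * (1 / 2 : ℝ) ^ V * Fintype.card (Tu K U J)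

/-- MNCS: the main term. -/
def S_MNCS : Prop := ∀ (t n : ℕ) (K : Fin t → ℕ) (sg : Fin t → ZMod 2) (ε : ℝ), 0 < ε →
  ∃ C₀ : ℕ, ∀ (U : Fin t → Type) [∀ l, Fintype (U l)] (J : Type) [Fintype J] [LinearOrder J]
  (w : ∀ l, U l ⊕ J → ZMod 2) (uU : ∀ l, U l → ZMod 2) (uJ : J → ZMod 2)
  (N : ∀ l, U l ⊕ J → U l ⊕ J → ZMod 2) (NJ : J → J → ZMod 2)
  (x : Fin t → Fin n → ZMod 2) (JR : Fin n → Finset J), HlS sg w uU uJ N NJ x JR →
  C₀ * sz U ≤ (univ.filter fun k => uJ k = 1).card → (∀ r, C₀ * sz U ≤ (JR r).card) →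
  |∑ ξ ∈ univ.filter (fun ξ : Tu K U J => Function.Surjective (Xf ξ) ∧ Sml N ξ),
      ∑ y ∈ RX (Xf ξ), sr (pr y (tg N ξ)) -
    lim sg K * 2 ^ (Fintype.card J * Fintype.card (Ix K))| ≤
    ε * 2 ^ (Fintype.card J * Fintype.card (Ix K))

/-- GRDS: the linear forms in `DX` are not stable under the types, and the labels satisfy an
additional equation at the large indices of a type. -/
def S_GRDS : Prop := ∀ (t n : ℕ) (K : Fin t → ℕ) (sg : Fin t → ZMod 2) (U : Fin t → Type)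
  [∀ l, Fintype (U l)] (J : Type)
  [Fintype J] (w : ∀ l, U l ⊕ J → ZMod 2) (uU : ∀ l, U l → ZMod 2) (uJ : J → ZMod 2)
  (N : ∀ l, U l ⊕ J → U l ⊕ J → ZMod 2) (NJ : J → J → ZMod 2)
  (x : Fin t → Fin n → ZMod 2) (JR : Fin n → Finset J), HlS sg w uU uJ N NJ x JR → Nonempty J →
  ∀ ξ : Tu K U J, IndT ξ → (∃ c ∈ DX (Xf ξ), c ≠ 0) → (∀ y ∈ RX (Xf ξ), pr y (tg N ξ) = 0) →
  ∃ r, ∃ c ∈ DX (Xf ξ), ∃ e : ZMod 2, (fun i : Ix K => x i.1 r * c i) ∉ DX (Xf ξ) ∧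
    (∀ q, ∑ i, c i * Xf ξ q i = e) ∧
    ∀ l₀, ∀ q ∈ JR r, ∑ i : Ix K, x i.1 r * c i * Xf ξ q i =
      e * (de N l₀ q + x l₀ r) +
        ∑ i : Ix K, c i * ∑ v, ξ i.1 i.2 (Sum.inl v) * N i.1 (Sum.inr q) (Sum.inl v)

/-- NSBS: the tuples for which the labels fill a proper affine subspace. -/
def S_NSBS : Prop := ∀ (t n : ℕ) (K : Fin t → ℕ) (sg : Fin t → ZMod 2) (ε : ℝ), 0 < ε →
  ∃ C₀ : ℕ, ∀ (U : Fin t → Type) [∀ l, Fintype (U l)] (J : Type) [Fintype J] [LinearOrder J]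
  (w : ∀ l, U l ⊕ J → ZMod 2) (uU : ∀ l, U l → ZMod 2) (uJ : J → ZMod 2)
  (N : ∀ l, U l ⊕ J → U l ⊕ J → ZMod 2) (NJ : J → J → ZMod 2)
  (x : Fin t → Fin n → ZMod 2) (JR : Fin n → Finset J), HlS sg w uU uJ N NJ x JR →
  C₀ * sz U ≤ (univ.filter fun k => uJ k = 1).card → (∀ r, C₀ * sz U ≤ (JR r).card) →
  ∑ ξ ∈ univ.filter (fun ξ : Tu K U J => IndT ξ ∧ Full (Xf ξ) ∧ (∃ c ∈ DX (Xf ξ), c ≠ 0) ∧
      ∀ y ∈ RX (Xf ξ), pr y (tg N ξ) = 0), ((RX (Xf ξ)).card : ℝ) ≤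
    ε * 2 ^ (Fintype.card J * Fintype.card (Ix K))

/-- MOMS: the mixed moments of the numbers of independent tuples. -/
def S_MOMS : Prop := ∀ (t n : ℕ) (K : Fin t → ℕ) (sg : Fin t → ZMod 2) (ε : ℝ), 0 < ε →
  ∃ C₀ : ℕ, ∀ (U : Fin t → Type) [∀ l, Fintype (U l)] (J : Type) [Fintype J] [LinearOrder J]
  (w : ∀ l, U l ⊕ J → ZMod 2) (uU : ∀ l, U l → ZMod 2) (uJ : J → ZMod 2)
  (N : ∀ l, U l ⊕ J → U l ⊕ J → ZMod 2) (NJ : J → J → ZMod 2)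
  (x : Fin t → Fin n → ZMod 2) (JR : Fin n → Finset J), HlS sg w uU uJ N NJ x JR →
  C₀ * sz U ≤ (univ.filter fun k => uJ k = 1).card → (∀ r, C₀ * sz U ≤ (JR r).card) →
  |(∑ σ : ps J → ZMod 2, ∏ l, (cnt (K l) (pt (N l) (sx σ)) : ℝ)) / 2 ^ (ps J).card -
    lim sg K| ≤ ε

/-- MOAS: the assembly of the moments. -/
def S_MOAS : Prop := S_FOUR → S_ORT → S_NSA → S_NSBS → S_MNCS → S_MOMS

/-- LAJS: the joint law of the random completions. -/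
def S_LAJS : Prop := ∀ (t n : ℕ) (sg : Fin t → ZMod 2) (ε : ℝ), 0 < ε → ∃ C₀ : ℕ,
  ∀ (U : Fin t → Type) [∀ l, Fintype (U l)] (J : Type) [Fintype J] [LinearOrder J]
  (w : ∀ l, U l ⊕ J → ZMod 2) (uU : ∀ l, U l → ZMod 2) (uJ : J → ZMod 2)
  (N : ∀ l, U l ⊕ J → U l ⊕ J → ZMod 2) (NJ : J → J → ZMod 2)
  (x : Fin t → Fin n → ZMod 2) (JR : Fin n → Finset J), HlS sg w uU uJ N NJ x JR →
  C₀ * sz U ≤ (univ.filter fun k => uJ k = 1).card → (∀ r, C₀ * sz U ≤ (JR r).card) →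
  |((univ.filter fun σ : ps J → ZMod 2 => ∀ l, Gv (pt (N l) (sx σ))).card : ℝ) /
    2 ^ (ps J).card - ∏ l, pS (sg l)| ≤ ε

/-- ASMS: from the moments to the law. -/
def S_ASMS : Prop := S_BON → S_EUL → S_EULS → S_MOMS → S_LAJS

end Pool.Agent.L0h86.JQ
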